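import Pool.Agent.H93.EN.Targets4

/-!
# Row CI1: finite selection of words and lit directions
-/

namespace Pool.Agent.H30.EN

open MeasureTheory Set Metric Filter Topology Pool.Agent.H93.EN
open Pool.Agent.H93.BL hiding T_B1 T_B2 T_B3 T_SB T_SC

theorem continuous_rf (a : ℂ) : Continuous fun w => rf a w :=
  continuous_const.mul Complex.continuous_conj

theorem continuous_wd (a b : ℂ) (l : List Bool) : Continuous fun w => wd a b l w := by
  induction l with
  | nil => exact continuous_id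
  | cons t l ih =>
    have h : (fun w => wd a b (t :: l) w) = fun w => rf (if t then a else b) (wd a b l w) := rfl
    rw [h]
    exact (continuous_rf _).comp ih

theorem ci1 : T_CI1 := by
  classical
  intro a b S ha hb hS hae ε hε
  have hexp : Continuous fun θ : ℝ => Complex.exp ((θ : ℂ) * Complex.I) :=
    Complex.continuous_exp.comp (Complex.continuous_ofReal.mul continuous_const)
  have hN : ∀ (l : List Bool) (p : ℂ), Continuous fun θ : ℝ =>
      ‖wd a b l (Complex.exp ((θ : ℂ) * Complex.I)) - p‖ := fun l p =>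
    (((continuous_wd a b l).comp hexp).sub continuous_const).norm
  let ι := {q : List Bool × (ℂ × ℝ) // q.2 ∈ S}
  let O : ι → Set ℝ := fun q =>
    {θ : ℝ | ‖wd a b q.1.1 (Complex.exp ((θ : ℂ) * Complex.I)) - q.1.2.1‖ < q.1.2.2 / 2}
  have hO : ∀ q, IsOpen (O q) := fun q => isOpen_lt (hN _ _) continuous_const
  obtain ⟨T, hT, hTU⟩ := TopologicalSpace.isOpen_iUnion_countable O hO
  have : Countable T := hT.to_subtype
  let A : Finset T → Set ℝ := fun s => {θ : ℝ | θ ∈ Ioo 0 (2 * Real.pi) ∧ ∀ q ∈ s, θ ∉ O q.1}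
  have hAm : ∀ s, MeasurableSet (A s) := by
    intro s
    have h1 : A s = Ioo 0 (2 * Real.pi) ∩ ⋂ q ∈ s, (O q.1)ᶜ := by
      ext θ
      simp only [A, mem_setOf_eq, mem_inter_iff, mem_iInter, mem_compl_iff]
    rw [h1]
    exact measurableSet_Ioo.inter
      (Finset.measurableSet_biInter s fun q _ => (hO q.1).measurableSet.compl)
  have hdir : Directed (· ⊇ ·) A := by
    intro s t
    refine ⟨s ∪ t, ?_, ?_⟩
    · exact fun θ hθ => ⟨hθ.1, fun q hq => hθ.2 q (Finset.mem_union_left _ hq)⟩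
    · exact fun θ hθ => ⟨hθ.1, fun q hq => hθ.2 q (Finset.mem_union_right _ hq)⟩
  have hfin : ∃ s, volume (A s) ≠ ⊤ := by
    refine ⟨∅, ne_top_of_le_ne_top ?_ (measure_mono (fun θ hθ => hθ.1 : A ∅ ⊆ Ioo 0 (2 * Real.pi)))⟩
    rw [Real.volume_Ioo]
    exact ENNReal.ofReal_ne_top
  have hinf := hdir.measure_iInter (fun s => (hAm s).nullMeasurableSet) hfin
  have hzero : volume (⋂ s, A s) = 0 := by
    refine measure_mono_null (t := {θ : ℝ | ¬ ∃ l : List Bool, ∃ p ∈ S,
      wd a b l (Complex.exp ((θ : ℂ) * Complex.I)) = p.1}) ?_ hae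
    intro θ hθ
    rw [mem_setOf_eq]
    rintro ⟨l, p, hp, hlp⟩
    have h1 : θ ∈ ⋃ q, O q := by
      refine mem_iUnion.2 ⟨⟨(l, p), hp⟩, ?_⟩
      change ‖wd a b l (Complex.exp ((θ : ℂ) * Complex.I)) - p.1‖ < p.2 / 2
      rw [hlp, sub_self, norm_zero]
      exact half_pos (hS p hp)
    rw [← hTU] at h1
    obtain ⟨q, hq, hθq⟩ := mem_iUnion₂.1 h1
    have h2 := mem_iInter.1 hθ {⟨q, hq⟩}
    exact h2.2 ⟨q, hq⟩ (Finset.mem_singleton_self _) hθq
  rw [hzero] at hinf
  have hlt : ⨅ s, volume (A s) < ENNReal.ofReal ε := by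
    rw [← hinf]
    exact ENNReal.ofReal_pos.2 hε
  obtain ⟨s, hs⟩ := iInf_lt_iff.1 hlt
  refine ⟨s.image fun q => q.1.1, ?_, ?_⟩
  · intro t ht
    obtain ⟨q, _, rfl⟩ := Finset.mem_image.1 ht
    exact q.1.2
  · refine le_trans (measure_mono ?_) hs.le
    intro θ hθ
    refine ⟨hθ.1, fun q hq hmem => ?_⟩
    have h1 := hθ.2 q.1.1 (Finset.mem_image_of_mem _ hq)
    exact absurd h1 (not_le.2 hmem)

end Pool.Agent.H30.EN
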