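import Pool.Agent.H93.EN.Targets4

/-!
# Row CI2: one word, low modes control the mass near the preimage of a dark arc
-/

namespace Pool.Agent.H30.EN

open MeasureTheory Set Metric Filter Topology Pool.Agent.H93.EN
open Pool.Agent.H93.BL hiding T_B1 T_B2 T_B3 T_SB T_SC

namespace CI2

theorem continuous_rf (a : ℂ) : Continuous fun w => rf a w :=
  continuous_const.mul Complex.continuous_conj

theorem continuous_wd (a b : ℂ) (l : List Bool) : Continuous fun w => wd a b l w := by
  induction l with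
  | nil => exact continuous_id
  | cons t l ih =>
    have h : (fun w => wd a b (t :: l) w) = fun w => rf (if t then a else b) (wd a b l w) := rfl
    rw [h]
    exact (continuous_rf _).comp ih

theorem continuous_e : Continuous fun θ : ℝ => Complex.exp ((θ : ℂ) * Complex.I) :=
  Complex.continuous_exp.comp (Complex.continuous_ofReal.mul continuous_const)

theorem norm_e (θ : ℝ) : ‖Complex.exp ((θ : ℂ) * Complex.I)‖ = 1 :=
  Complex.norm_exp_ofReal_mul_I θ

theorem wd_norm (h2 : T_B3) {a b : ℂ} (ha : ‖a‖ = 1) (hb : ‖b‖ = 1) (l : List Bool) (w : ℂ) :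
    ‖wd a b l w‖ = ‖w‖ := by
  induction l with
  | nil => rfl
  | cons t l ih =>
    have h : wd a b (t :: l) w = rf (if t then a else b) (wd a b l w) := rfl
    rw [h]
    have hc : ‖(if t then a else b)‖ = 1 := by
      split_ifs
      · exact ha
      · exact hb
    rw [((h2 (fun _ => 0) _ hc).2.2 _).2, ih]

/-- integrability of products of a bounded measurable function and a continuous one -/
theorem ii {h : ℂ → ℝ} (hm : Measurable h) (hb : ∀ w, 0 ≤ h w ∧ h w ≤ 1) {f : ℝ → ℂ}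
    (hf : Continuous f) : IntervalIntegrable
      (fun θ : ℝ => (h (Complex.exp ((θ : ℂ) * Complex.I)) : ℂ) * f θ) volume
        0 (2 * Real.pi) := by
  have h1 : IntervalIntegrable f volume 0 (2 * Real.pi) := hf.intervalIntegrable _ _
  refine h1.mono_fun ?_ ?_
  · exact ((Complex.measurable_ofReal.comp (hm.comp continuous_e.measurable)).mul
      hf.measurable).aestronglyMeasurable
  · refine Eventually.of_forall fun θ => ?_
    change ‖(h (Complex.exp ((θ : ℂ) * Complex.I)) : ℂ) * f θ‖ ≤ ‖f θ‖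
    rw [norm_mul, Complex.norm_real, Real.norm_of_nonneg (hb _).1]
    exact mul_le_of_le_one_left (norm_nonneg _) (hb _).2

theorem ir {h : ℂ → ℝ} (hm : Measurable h) (hb : ∀ w, 0 ≤ h w ∧ h w ≤ 1) {f : ℝ → ℝ}
    (hf : Continuous f) : IntervalIntegrable
      (fun θ : ℝ => h (Complex.exp ((θ : ℂ) * Complex.I)) * f θ) volume 0 (2 * Real.pi) := by
  have h1 : IntervalIntegrable f volume 0 (2 * Real.pi) := hf.intervalIntegrable _ _
  refine h1.mono_fun ?_ ?_
  · exact ((hm.comp continuous_e.measurable).mul hf.measurable).aestronglyMeasurable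
  · refine Eventually.of_forall fun θ => ?_
    change ‖h (Complex.exp ((θ : ℂ) * Complex.I)) * f θ‖ ≤ ‖f θ‖
    rw [norm_mul, Real.norm_of_nonneg (hb _).1]
    exact mul_le_of_le_one_left (norm_nonneg _) (hb _).2

theorem continuous_poly (s : Finset ℤ) (c : ℤ → ℂ) : Continuous fun θ : ℝ =>
    ∑ k ∈ s, c k * Complex.exp ((θ : ℂ) * Complex.I) ^ k := by
  refine continuous_finsetSum _ fun k _ => continuous_const.mul ?_
  exact continuous_e.zpow₀ k fun θ => Or.inl (Complex.exp_ne_zero _)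

theorem avp {h : ℂ → ℝ} (hm : Measurable h) (hb : ∀ w, 0 ≤ h w ∧ h w ≤ 1) (s : Finset ℤ)
    (c : ℤ → ℂ) : av (fun w => h w * (∑ k ∈ s, c k * w ^ k).re) =
      (∑ k ∈ s, c k * md h (-k)).re := by
  have h1 : ∀ k ∈ s, c k * md h (-k) = (((2 * Real.pi)⁻¹ : ℝ) : ℂ) *
      ∫ θ in (0 : ℝ)..(2 * Real.pi), (h (Complex.exp ((θ : ℂ) * Complex.I)) : ℂ) *
        (c k * Complex.exp ((θ : ℂ) * Complex.I) ^ k) := by
    intro k _
    unfold md
    rw [mul_left_comm, ← intervalIntegral.integral_const_mul]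
    congr 1
    refine intervalIntegral.integral_congr fun θ _ => ?_
    change c k * ((h (Complex.exp ((θ : ℂ) * Complex.I)) : ℂ) *
      Complex.exp (-(((-k : ℤ) : ℂ) * (θ : ℂ) * Complex.I))) = _
    rw [← Complex.exp_int_mul]
    have h2 : -(((-k : ℤ) : ℂ) * (θ : ℂ) * Complex.I) = (k : ℂ) * ((θ : ℂ) * Complex.I) := by
      push_cast
      ring
    rw [h2]
    ring
  rw [Finset.sum_congr rfl h1, ← Finset.mul_sum, Complex.re_ofReal_mul,
    ← intervalIntegral.integral_finsetSum]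
  · unfold av
    congr 1
    have h3 := Complex.reCLM.intervalIntegral_comp_comm (a := 0) (b := 2 * Real.pi) (μ := volume)
      (ii hm hb (continuous_poly s c))
    rw [Complex.reCLM_apply] at h3
    have h4 : (∫ θ in (0 : ℝ)..(2 * Real.pi), ∑ k ∈ s,
        (h (Complex.exp ((θ : ℂ) * Complex.I)) : ℂ) *
          (c k * Complex.exp ((θ : ℂ) * Complex.I) ^ k)) =
        ∫ θ in (0 : ℝ)..(2 * Real.pi), (h (Complex.exp ((θ : ℂ) * Complex.I)) : ℂ) *
          ∑ k ∈ s, c k * Complex.exp ((θ : ℂ) * Complex.I) ^ k := by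
      refine intervalIntegral.integral_congr fun θ _ => ?_
      exact (Finset.mul_sum _ _ _).symm
    rw [h4, ← h3]
    refine intervalIntegral.integral_congr fun θ _ => ?_
    change h (Complex.exp ((θ : ℂ) * Complex.I)) *
      (∑ k ∈ s, c k * Complex.exp ((θ : ℂ) * Complex.I) ^ k).re =
      Complex.reCLM ((h (Complex.exp ((θ : ℂ) * Complex.I)) : ℂ) *
        ∑ k ∈ s, c k * Complex.exp ((θ : ℂ) * Complex.I) ^ k)
    rw [Complex.reCLM_apply, Complex.re_ofReal_mul]
  · intro k _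
    refine ii hm hb (continuous_const.mul ?_)
    exact continuous_e.zpow₀ k fun θ => Or.inl (Complex.exp_ne_zero _)

theorem av_le_add {f g : ℂ → ℝ} {ε : ℝ}
    (hf : IntervalIntegrable (fun θ : ℝ => f (Complex.exp ((θ : ℂ) * Complex.I))) volume
      0 (2 * Real.pi))
    (hg : IntervalIntegrable (fun θ : ℝ => g (Complex.exp ((θ : ℂ) * Complex.I))) volume
      0 (2 * Real.pi)) (h : ∀ w, ‖w‖ = 1 → f w ≤ g w + ε) : av f ≤ av g + ε := by
  unfold av
  have hpi : 0 < 2 * Real.pi := by positivity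
  have h1 : (∫ θ in (0 : ℝ)..(2 * Real.pi), f (Complex.exp ((θ : ℂ) * Complex.I))) ≤
      ∫ θ in (0 : ℝ)..(2 * Real.pi), (g (Complex.exp ((θ : ℂ) * Complex.I)) + ε) :=
    intervalIntegral.integral_mono_on hpi.le hf (hg.add intervalIntegrable_const)
      fun θ _ => h _ (norm_e θ)
  rw [intervalIntegral.integral_add hg intervalIntegrable_const,
    intervalIntegral.integral_const, sub_zero, smul_eq_mul] at h1
  calc (2 * Real.pi)⁻¹ * ∫ θ in (0 : ℝ)..(2 * Real.pi), f (Complex.exp ((θ : ℂ) * Complex.I))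
      ≤ (2 * Real.pi)⁻¹ * ((∫ θ in (0 : ℝ)..(2 * Real.pi),
          g (Complex.exp ((θ : ℂ) * Complex.I))) + 2 * Real.pi * ε) :=
        mul_le_mul_of_nonneg_left h1 (by positivity)
    _ = _ := by
        rw [mul_add, ← mul_assoc, inv_mul_cancel₀ hpi.ne', one_mul]

/-- transport of `g` by the inverse word -/
noncomputable def G (a b : ℂ) (g : ℂ → ℝ) : List Bool → ℂ → ℝ
  | [] => g
  | t :: l => fun w => G a b g l (rf (if t then a else b) w)

theorem G_meas {a b : ℂ} {g : ℂ → ℝ} (hg : Measurable g) (l : List Bool) :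
    Measurable (G a b g l) := by
  induction l with
  | nil => exact hg
  | cons t l ih => exact ih.comp (continuous_rf _).measurable

theorem G_bd {a b : ℂ} {g : ℂ → ℝ} (hg : ∀ w, 0 ≤ g w ∧ g w ≤ 1) (l : List Bool) :
    ∀ w, 0 ≤ G a b g l w ∧ G a b g l w ≤ 1 := by
  induction l with
  | nil => exact hg
  | cons t l ih => exact fun w => ih _

theorem G_av (h2 : T_B3) {a b : ℂ} (ha : ‖a‖ = 1) (hb : ‖b‖ = 1) (g : ℂ → ℝ) (l : List Bool) :
    ∀ ψ : ℂ → ℝ, av (fun w => g w * ψ (wd a b l w)) = av (fun w => G a b g l w * ψ w) := by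
  induction l with
  | nil => exact fun ψ => rfl
  | cons t l ih =>
    intro ψ
    have hc : ‖(if t then a else b)‖ = 1 := by
      split_ifs
      · exact ha
      · exact hb
    have h3 := ih fun w => ψ (rf (if t then a else b) w)
    have h4 : (fun w => g w * ψ (wd a b (t :: l) w)) =
        fun w => g w * (fun w => ψ (rf (if t then a else b) w)) (wd a b l w) := rfl
    rw [h4, h3]
    have h5 := (h2 (fun w => G a b g l w * ψ (rf (if t then a else b) w)) _ hc).1
    change av (fun w => G a b g l w * ψ (rf (if t then a else b) w)) = _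
    rw [← h5]
    congr 1
    funext w
    rw [((h2 (fun _ => 0) _ hc).2.2 w).1]
    rfl

theorem one_refl {c m : ℂ} (hc : ‖c‖ = 1) (k : ℤ) :
    ‖(c ^ 2) ^ (-k) * (starRingEnd ℂ) m - m‖ = 2 * |(m * c ^ k).im| := by
  have hc0 : c ≠ 0 := by
    intro h
    rw [h, norm_zero] at hc
    exact zero_ne_one hc
  have hcc : (starRingEnd ℂ) c = c⁻¹ := by
    rw [Complex.inv_def, Complex.normSq_eq_norm_sq, hc]
    simp
  have hck : c ^ k ≠ 0 := zpow_ne_zero _ hc0
  have h1 : (c ^ 2) ^ (-k) * (starRingEnd ℂ) m - m =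
      (c ^ k)⁻¹ * ((starRingEnd ℂ) (m * c ^ k) - m * c ^ k) := by
    rw [map_mul, map_zpow₀, hcc, inv_zpow, zpow_neg, ← zpow_natCast, ← zpow_mul,
      mul_comm ((2 : ℕ) : ℤ) k, zpow_mul, zpow_natCast]
    field_simp
  have h2' : ∀ z : ℂ, (starRingEnd ℂ) z - z = ((-2 * z.im : ℝ) : ℂ) * Complex.I := by
    intro z
    apply Complex.ext
    · rw [Complex.sub_re, Complex.conj_re, Complex.re_ofReal_mul, Complex.I_re]
      ring
    · rw [Complex.sub_im, Complex.conj_im, Complex.im_ofReal_mul, Complex.I_im]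
      ring
  have h2 := h2' (m * c ^ k)
  rw [h1, norm_mul, norm_inv, norm_zpow, hc, one_zpow, inv_one, one_mul, h2, norm_mul,
    Complex.norm_I, mul_one, Complex.norm_real, Real.norm_eq_abs, abs_mul]
  norm_num

theorem G_md (h2 : T_B3) {a b : ℂ} (ha : ‖a‖ = 1) (hb : ‖b‖ = 1) (g : ℂ → ℝ) {e : ℝ} {k : ℤ}
    (h : |(md g k * a ^ k).im| ≤ e ∧ |(md g k * b ^ k).im| ≤ e) (l : List Bool) :
    ‖md (G a b g l) k - md g k‖ ≤ 2 * l.length * e := by
  induction l with
  | nil =>
    change ‖md g k - md g k‖ ≤ _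
    simp
  | cons t l ih =>
    have hc : ‖(if t then a else b)‖ = 1 := by
      split_ifs
      · exact ha
      · exact hb
    have hm : |(md g k * (if t then a else b) ^ k).im| ≤ e := by
      split_ifs
      · exact h.1
      · exact h.2
    have h3 : md (G a b g (t :: l)) k = ((if t then a else b) ^ 2) ^ (-k) *
        (starRingEnd ℂ) (md (G a b g l) k) := (h2 (G a b g l) _ hc).2.1 k
    have hn : ‖((if t then a else b) ^ 2 : ℂ) ^ (-k)‖ = 1 := by
      rw [norm_zpow, norm_pow, hc, one_pow, one_zpow]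
    have h4 : md (G a b g (t :: l)) k - md g k =
        ((if t then a else b) ^ 2) ^ (-k) * (starRingEnd ℂ) (md (G a b g l) k - md g k) +
          (((if t then a else b) ^ 2) ^ (-k) * (starRingEnd ℂ) (md g k) - md g k) := by
      rw [h3, map_sub]
      ring
    rw [h4]
    refine (norm_add_le _ _).trans ?_
    rw [norm_mul, hn, one_mul, RCLike.norm_conj, one_refl hc]
    rw [List.length_cons]
    push_cast
    nlinarith [ih, hm]

end CI2

open CI2

theorem ci2 (_h1 : T_B2) (h2 : T_B3) (h3 : T_TRG) : T_CI2 := by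
  intro a b w₀ ε₀ ε₁ l ha hb _hw₀ hε₀ hε₁
  have hpi : 0 < 2 * Real.pi := by positivity
  let ψ : ℂ → ℝ := fun w => max 0 (min 1 (2 - 2 * ‖w - w₀‖ / ε₀))
  have hψc : Continuous ψ := by
    refine continuous_const.max (continuous_const.min (continuous_const.sub ?_))
    exact (continuous_const.mul (continuous_id.sub continuous_const).norm).div_const _
  have hψ0 : ∀ w, 0 ≤ ψ w := fun w => le_max_left _ _
  have hψ1 : ∀ w, ‖w - w₀‖ < ε₀ / 2 → ψ w = 1 := by
    intro w hw
    have h : 1 ≤ 2 - 2 * ‖w - w₀‖ / ε₀ := by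
      have : 2 * ‖w - w₀‖ / ε₀ ≤ 1 := by
        rw [div_le_one hε₀]
        linarith
      linarith
    change max 0 (min 1 (2 - 2 * ‖w - w₀‖ / ε₀)) = 1
    rw [min_eq_left h, max_eq_right zero_le_one]
  have hψz : ∀ w, ε₀ ≤ ‖w - w₀‖ → ψ w = 0 := by
    intro w hw
    have h : 2 - 2 * ‖w - w₀‖ / ε₀ ≤ 0 := by
      have : 2 ≤ 2 * ‖w - w₀‖ / ε₀ := by
        rw [le_div_iff₀ hε₀]
        linarith
      linarith
    exact max_eq_left ((min_le_right _ _).trans h)
  set ε₂ := ε₁ / (8 * Real.pi) with hε₂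
  have hε₂0 : 0 < ε₂ := by positivity
  obtain ⟨K, c, hKc⟩ := h3 ψ hψc ε₂ hε₂0
  set s := Finset.Icc (-(K : ℤ)) (K : ℤ) with hs
  refine ⟨K, 1 + 2 * Real.pi * ∑ k ∈ s, ‖c k‖ * (2 * l.length + 1), ?_, ?_⟩
  · have : 0 ≤ ∑ k ∈ s, ‖c k‖ * (2 * l.length + 1) :=
      Finset.sum_nonneg fun k _ => by positivity
    positivity
  intro g g' e hgm hgm' hg hg' hdark hmodes
  have he : 0 ≤ e := by
    have h := (hmodes 0 (by simp)).2.2
    exact (norm_nonneg _).trans h
  -- step 1
  have hpc : Continuous fun θ : ℝ =>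
      (∑ k ∈ s, c k * Complex.exp ((θ : ℂ) * Complex.I) ^ k).re :=
    Complex.continuous_re.comp (continuous_poly s c)
  have hψe : Continuous fun θ : ℝ => ψ (Complex.exp ((θ : ℂ) * Complex.I)) :=
    hψc.comp continuous_e
  have hA : av (fun w => G a b g l w * ψ w) ≤
      (∑ k ∈ s, c k * md (G a b g l) (-k)).re + ε₂ := by
    rw [← avp (G_meas hgm l) (G_bd hg l) s c]
    refine av_le_add (ir (G_meas hgm l) (G_bd hg l) hψe) (ir (G_meas hgm l) (G_bd hg l) hpc) ?_
    intro w hw
    have h5 := (abs_le.1 (hKc w hw)).2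
    have h6 := G_bd (a := a) (b := b) hg l w
    nlinarith
  have hB : (∑ k ∈ s, c k * md g' (-k)).re ≤ ε₂ := by
    rw [← avp hgm' hg' s c]
    have h5 : av (fun w => g' w * (∑ k ∈ s, c k * w ^ k).re) ≤ av (fun _ => 0) + ε₂ := by
      refine av_le_add (ir hgm' hg' hpc) intervalIntegrable_const ?_
      intro w hw
      have h5 := (abs_le.1 (hKc w hw)).1
      have h6 := hg' w
      by_cases hd : ‖w - w₀‖ < ε₀
      · rw [hdark w hw hd, zero_mul, zero_add]
        exact hε₂0.le
      · rw [hψz w (not_lt.1 hd)] at h5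
        nlinarith
    have h6 : av (fun _ => 0) = 0 := by
      unfold av
      simp
    rwa [h6, zero_add] at h5
  have hC : (∑ k ∈ s, c k * md (G a b g l) (-k)).re ≤ (∑ k ∈ s, c k * md g' (-k)).re +
      ∑ k ∈ s, ‖c k‖ * (2 * l.length + 1) * e := by
    have h5 : (∑ k ∈ s, c k * md (G a b g l) (-k)).re - (∑ k ∈ s, c k * md g' (-k)).re ≤
        ∑ k ∈ s, ‖c k‖ * (2 * l.length + 1) * e := by
      rw [← Complex.sub_re, ← Finset.sum_sub_distrib]
      refine (Complex.re_le_norm _).trans ((norm_sum_le _ _).trans ?_)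
      refine Finset.sum_le_sum fun k hk => ?_
      rw [← mul_sub, norm_mul, mul_assoc]
      refine mul_le_mul_of_nonneg_left ?_ (norm_nonneg _)
      have hk' : |(-k)| ≤ (K : ℤ) := by
        rw [hs, Finset.mem_Icc] at hk
        rw [abs_neg, abs_le]
        exact hk
      have h6 := hmodes (-k) hk'
      have h7 := G_md h2 ha hb g ⟨h6.1, h6.2.1⟩ l
      have h8 : md (G a b g l) (-k) - md g' (-k) =
          (md (G a b g l) (-k) - md g (-k)) + (md g (-k) - md g' (-k)) := by ring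
      rw [h8]
      refine (norm_add_le _ _).trans ?_
      have := h6.2.2
      linarith
    linarith
  -- step 2
  have hD : ∫ θ in {θ : ℝ | θ ∈ Ioo 0 (2 * Real.pi) ∧
      ‖wd a b l (Complex.exp ((θ : ℂ) * Complex.I)) - w₀‖ < ε₀ / 2},
        g (Complex.exp ((θ : ℂ) * Complex.I)) ≤
      2 * Real.pi * av (fun w => g w * ψ (wd a b l w)) := by
    unfold av
    rw [← mul_assoc, mul_inv_cancel₀ hpi.ne', one_mul,
      intervalIntegral.integral_of_le hpi.le, integral_Ioc_eq_integral_Ioo]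
    have hcont : Continuous fun θ : ℝ =>
        ψ (wd a b l (Complex.exp ((θ : ℂ) * Complex.I))) :=
      hψc.comp ((continuous_wd a b l).comp continuous_e)
    have hint : IntegrableOn (fun θ : ℝ => g (Complex.exp ((θ : ℂ) * Complex.I)) *
        ψ (wd a b l (Complex.exp ((θ : ℂ) * Complex.I)))) (Ioo 0 (2 * Real.pi)) := by
      have h := ir hgm hg hcont
      rw [intervalIntegrable_iff_integrableOn_Ioo_of_le hpi.le] at h
      exact h
    have hAm : MeasurableSet {θ : ℝ | θ ∈ Ioo 0 (2 * Real.pi) ∧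
        ‖wd a b l (Complex.exp ((θ : ℂ) * Complex.I)) - w₀‖ < ε₀ / 2} := by
      have h9 : Continuous fun θ : ℝ =>
          ‖wd a b l (Complex.exp ((θ : ℂ) * Complex.I)) - w₀‖ :=
        (((continuous_wd a b l).comp continuous_e).sub continuous_const).norm
      have h10 : {θ : ℝ | θ ∈ Ioo 0 (2 * Real.pi) ∧
          ‖wd a b l (Complex.exp ((θ : ℂ) * Complex.I)) - w₀‖ < ε₀ / 2} =
          Ioo 0 (2 * Real.pi) ∩ {θ : ℝ |
            ‖wd a b l (Complex.exp ((θ : ℂ) * Complex.I)) - w₀‖ < ε₀ / 2} := rfl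
      rw [h10]
      exact measurableSet_Ioo.inter (isOpen_lt h9 continuous_const).measurableSet
    have hsub : {θ : ℝ | θ ∈ Ioo 0 (2 * Real.pi) ∧
        ‖wd a b l (Complex.exp ((θ : ℂ) * Complex.I)) - w₀‖ < ε₀ / 2} ⊆
        Ioo 0 (2 * Real.pi) := fun θ hθ => hθ.1
    refine le_trans (le_of_eq ?_) (setIntegral_mono_set hint ?_ hsub.eventuallyLE)
    · refine setIntegral_congr_fun hAm fun θ hθ => ?_
      change g (Complex.exp ((θ : ℂ) * Complex.I)) = g (Complex.exp ((θ : ℂ) * Complex.I)) *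
        ψ (wd a b l (Complex.exp ((θ : ℂ) * Complex.I)))
      rw [hψ1 _ hθ.2, mul_one]
    · refine Eventually.of_forall fun θ => ?_
      exact mul_nonneg (hg _).1 (hψ0 _)
  rw [G_av h2 ha hb g l ψ] at hD
  have hE : ∑ k ∈ s, ‖c k‖ * (2 * l.length + 1) * e =
      (∑ k ∈ s, ‖c k‖ * (2 * l.length + 1)) * e := by
    rw [Finset.sum_mul]
  rw [hE] at hC
  set Sg := ∑ k ∈ s, ‖c k‖ * (2 * (l.length : ℝ) + 1) with hSg
  have hF : av (fun w => G a b g l w * ψ w) ≤ 2 * ε₂ + Sg * e := by linarith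
  have hG : 2 * Real.pi * av (fun w => G a b g l w * ψ w) ≤
      2 * Real.pi * (2 * ε₂ + Sg * e) := mul_le_mul_of_nonneg_left hF hpi.le
  have hH : 2 * Real.pi * (2 * ε₂ + Sg * e) = ε₁ / 2 + 2 * Real.pi * Sg * e := by
    rw [hε₂]
    field_simp
    ring
  rw [hH] at hG
  refine (hD.trans hG).trans ?_
  nlinarith

end Pool.Agent.H30.EN
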