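import Pool.Agent.H65.EN.Targets
import Pool.Agent.H33.LV.PPA

/-!
# Row NOD: a complete sum to a prime power is controlled by one disc (helper30)
-/

set_option autoImplicit false

namespace Pool.Agent.H30.EN.NOD

open Finset Polynomial
open Pool.Agent.H26.LV Pool.Agent.H33.LV
open Pool.Agent.H65.EN (T_NOD)

/-- the conclusion for one disc, with the constant `C` -/
def Nd (d p m : ℕ) (F : ℤ[X]) (l : ℤ) (C x : ℝ) : Prop :=
  ∃ i v y : ℕ, i ≤ v ∧ v ≤ m ∧ v ≤ d * i ∧ y < p ^ i ∧ Vge p v (dsc p i (y : ℤ) F) ∧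
    (p : ℤ) ^ (v - i) ∣ l - (derivative F).eval (y : ℤ) ∧
    x ≤ C / (p : ℝ) ^ (2 * i + (m - v))

/-- the same without the condition on `l` if `x = 0` -/
def Gd (d p m : ℕ) (F : ℤ[X]) (l : ℤ) (C x : ℝ) : Prop :=
  ∃ i v y : ℕ, i ≤ v ∧ v ≤ m ∧ v ≤ d * i ∧ y < p ^ i ∧ Vge p v (dsc p i (y : ℤ) F) ∧
    x ≤ if (p : ℤ) ^ (v - i) ∣ l - (derivative F).eval (y : ℤ) then
      C / (p : ℝ) ^ (2 * i + (m - v)) else 0

theorem Gd.nd {d p m : ℕ} {F : ℤ[X]} {l : ℤ} {C x : ℝ} (h : Gd d p m F l C x) (hx : 0 < x) :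
    Nd d p m F l C x := by
  obtain ⟨i, v, y, h1, h2, h3, h4, h5, h6⟩ := h
  split_ifs at h6 with h7
  · exact ⟨i, v, y, h1, h2, h3, h4, h5, h7, h6⟩
  · exact absurd h6 (not_le.2 hx)

theorem pig {ι : Type} (s : Finset ι) (u : ι → ℂ) (d p m n : ℕ) (F : ℤ[X]) (l : ℤ) (C : ℝ)
    (hp : p.Prime) (hC : 0 ≤ C) (hs : s.card ≤ n) (h : ∀ c ∈ s, Gd d p m F l C (‖u c‖ ^ 2)) :
    ‖∑ c ∈ s, u c‖ ^ 2 = 0 ∨ Nd d p m F l (n ^ 2 * C) (‖∑ c ∈ s, u c‖ ^ 2) := by
  by_cases h0 : ∑ c ∈ s, u c = 0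
  · left
    rw [h0, norm_zero]
    norm_num
  right
  have hne : s.Nonempty := by
    by_contra hcon
    rw [Finset.not_nonempty_iff_eq_empty] at hcon
    rw [hcon, Finset.sum_empty] at h0
    exact h0 rfl
  obtain ⟨c, hc, hmax⟩ := s.exists_max_image (fun c => ‖u c‖) hne
  have h1 : ‖∑ c ∈ s, u c‖ ≤ n * ‖u c‖ := by
    calc ‖∑ c ∈ s, u c‖ ≤ ∑ c ∈ s, ‖u c‖ := norm_sum_le _ _
      _ ≤ ∑ _c ∈ s, ‖u c‖ := Finset.sum_le_sum fun c' hc' => hmax c' hc'
      _ = s.card * ‖u c‖ := by rw [Finset.sum_const, nsmul_eq_mul]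
      _ ≤ n * ‖u c‖ := mul_le_mul_of_nonneg_right (by exact_mod_cast hs) (norm_nonneg _)
  have h2 : 0 < ‖∑ c ∈ s, u c‖ := norm_pos_iff.2 h0
  have h3 : 0 < ‖u c‖ := by
    by_contra hcon
    push Not at hcon
    have h4 : ‖u c‖ = 0 := le_antisymm hcon (norm_nonneg _)
    rw [h4, mul_zero] at h1
    linarith
  obtain ⟨i, v, y, g1, g2, g3, g4, g5, g6, g7⟩ := (h c hc).nd (by positivity)
  refine ⟨i, v, y, g1, g2, g3, g4, g5, g6, ?_⟩
  calc ‖∑ c ∈ s, u c‖ ^ 2 ≤ (n * ‖u c‖) ^ 2 := pow_le_pow_left₀ (norm_nonneg _) h1 2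
    _ = n ^ 2 * ‖u c‖ ^ 2 := by ring
    _ ≤ n ^ 2 * (C / (p : ℝ) ^ (2 * i + (m - v))) :=
        mul_le_mul_of_nonneg_left g7 (by positivity)
    _ = n ^ 2 * C / (p : ℝ) ^ (2 * i + (m - v)) := by ring

theorem Nd.mono {d p m : ℕ} {F : ℤ[X]} {l : ℤ} {C C' x : ℝ} (hp : p.Prime)
    (h : Nd d p m F l C x) (hC : C ≤ C') : Nd d p m F l C' x := by
  obtain ⟨i, v, y, g1, g2, g3, g4, g5, g6, g7⟩ := h
  have hp0 : (0 : ℝ) < p := by exact_mod_cast hp.pos
  refine ⟨i, v, y, g1, g2, g3, g4, g5, g6, g7.trans ?_⟩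
  gcongr

/-- a terminal disc is good -/
theorem memb (hTER : T_TER) (hVAL : T_VAL) {k : ℕ} (hk2 : 2 ≤ k) : ∃ C₀ : ℝ, 1 ≤ C₀ ∧
    ∀ (μ p m i : ℕ) (F : ℤ[X]) (y : ℕ) (l : ℤ) (C : ℝ), p.Prime → F.natDegree ≤ k → Prm p F →
    (μ = 2 ∨ p ≠ 2 ∧ μ = 1) → i ≤ m → y < p ^ i → C₀ ≤ C → ¬ NT μ p m F i (y : ℤ) →
    Gd k p m F l C (‖cD p m i (y : ℤ) F l‖ ^ 2) := by
  obtain ⟨C₀, hC, h⟩ := hTER k hk2
  refine ⟨C₀, hC, ?_⟩
  intro μ p m i F y l C hp hk hP hμ him hy hCC hN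
  have hp0 : (0 : ℝ) < p := by exact_mod_cast hp.pos
  obtain ⟨v, h1, h2, h3, h4, h5⟩ := terminal hVAL hp hk hP hμ him hN
  refine ⟨i, v, y, h1, h2, h3, hy, h4, ?_⟩
  refine (h p m i v μ (y : ℤ) F l hp hk h1 h2 h4 h5).trans ?_
  split_ifs
  · gcongr
  · exact le_rfl

open Classical in
theorem small (hTER : T_TER) (hNGB : T_NGB) (hVAL : T_VAL) (hTRE : T_TRE) {k : ℕ} (hk2 : 2 ≤ k) :
    ∃ C : ℝ, 1 ≤ C ∧ ∀ (p m : ℕ) (F : ℤ[X]) (l : ℤ), p.Prime → p ≤ k → F.natDegree ≤ k →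
      Prm p F → AA (p ^ m) F l = 0 ∨
        Nd k p m F l (C * ((m : ℝ) + 1) ^ 2) (AA (p ^ m) F l) := by
  obtain ⟨C₁, hC₁, hmem⟩ := memb hTER hVAL hk2
  obtain ⟨N₀, hN₀⟩ := hNGB k
  have hkR : (2 : ℝ) ≤ k := by exact_mod_cast hk2
  have hB : (1 : ℝ) ≤ ((N₀ : ℝ) + 1) * k := by
    have : (0 : ℝ) ≤ N₀ := Nat.cast_nonneg _
    nlinarith
  refine ⟨C₁ * (((N₀ : ℝ) + 1) * k) ^ 2, ?_, ?_⟩
  · have h2 : (1 : ℝ) ≤ (((N₀ : ℝ) + 1) * k) ^ 2 := one_le_pow₀ hB
    nlinarith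
  intro p m F l hp hpk hk hP
  have hμ : (2 : ℕ) = 2 ∨ p ≠ 2 ∧ (2 : ℕ) = 1 := Or.inl rfl
  have hm0 : (0 : ℝ) ≤ m := Nat.cast_nonneg _
  by_cases h00 : NT 2 p m F 0 0
  · have htre := hTRE p m F l (fun i y => NT 2 p m F i (y : ℤ)) hp
      (fun i y t h => NT.step hVAL hp (by norm_num) (by simpa using h))
      (fun y => NT.top hVAL) (by simpa using h00)
    let s : Finset (Σ _ : ℕ, Σ _ : ℕ, ℕ) := (range m).sigma fun i =>
      ((range (p ^ i)).filter (fun y : ℕ => NT 2 p m F i (y : ℤ))).sigma fun y : ℕ =>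
        (range p).filter (fun t : ℕ => ¬ NT 2 p m F (i + 1) ((y + p ^ i * t : ℕ) : ℤ))
    let u : (Σ _ : ℕ, Σ _ : ℕ, ℕ) → ℂ := fun c =>
      cD p m (c.1 + 1) ((c.2.1 : ℤ) + (p : ℤ) ^ c.1 * (c.2.2 : ℤ)) F l
    have hs : s.card ≤ m * (N₀ + 1) * k := by
      rw [Finset.card_sigma]
      calc ∑ i ∈ range m, _ ≤ ∑ i ∈ range m, (N₀ + 1) * k := by
            refine Finset.sum_le_sum fun i _ => ?_
            rw [Finset.card_sigma]
            calc _ ≤ ∑ y ∈ (range (p ^ i)).filter (fun y : ℕ => NT 2 p m F i (y : ℤ)), k := by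
                  refine Finset.sum_le_sum fun y _ => ?_
                  exact (Finset.card_filter_le _ _).trans (by simpa using hpk)
              _ ≤ (N₀ + 1) * k := by
                  rw [Finset.sum_const, smul_eq_mul]
                  refine Nat.mul_le_mul_right _ ?_
                  refine le_trans (card_cast (Q := fun y => ¬ ∃ w, Gen p 2 w (dsc p i y F))
                    (fun y hy => hy.1)) (le_trans (Finset.card_le_card ?_)
                    ((hN₀ p i F hp hpk hk hP).trans (Nat.le_succ N₀)))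
                  intro x hx
                  simp only [Finset.mem_filter] at hx ⊢
                  exact hx
        _ = m * (N₀ + 1) * k := by
            rw [Finset.sum_const, smul_eq_mul, Finset.card_range, mul_assoc]
    have hgd : ∀ c ∈ s, Gd k p m F l C₁ (‖u c‖ ^ 2) := by
      intro c hc
      simp only [s, Finset.mem_sigma, Finset.mem_filter, Finset.mem_range] at hc
      obtain ⟨hi, ⟨hy, _⟩, ht, hN⟩ := hc
      have hlt : c.2.1 + p ^ c.1 * c.2.2 < p ^ (c.1 + 1) := by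
        have h1 : c.2.2 + 1 ≤ p := ht
        calc c.2.1 + p ^ c.1 * c.2.2 < p ^ c.1 + p ^ c.1 * c.2.2 :=
              Nat.add_lt_add_right hy _
          _ = p ^ c.1 * (c.2.2 + 1) := by ring
          _ ≤ p ^ c.1 * p := Nat.mul_le_mul_left _ h1
          _ = p ^ (c.1 + 1) := by rw [pow_succ]
      have h2 := hmem 2 p m (c.1 + 1) F (c.2.1 + p ^ c.1 * c.2.2) l C₁ hp hk hP hμ (by omega)
        hlt le_rfl hN
      push_cast at h2
      exact h2
    have hAA : AA (p ^ m) F l = ‖∑ c ∈ s, u c‖ ^ 2 := by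
      unfold AA
      rw [htre]
      congr 2
      simp only [s, u, Finset.sum_sigma]
    rw [hAA]
    rcases pig s u k p m (m * (N₀ + 1) * k) F l C₁ hp (by linarith) hs hgd with h | h
    · exact Or.inl h
    · right
      refine h.mono hp ?_
      have h1 : ((m * (N₀ + 1) * k : ℕ) : ℝ) ^ 2 ≤
          (((N₀ : ℝ) + 1) * k) ^ 2 * ((m : ℝ) + 1) ^ 2 := by
        push_cast
        rw [← mul_pow]
        refine pow_le_pow_left₀ (by positivity) ?_ 2
        nlinarith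
      calc _ ≤ ((((N₀ : ℝ) + 1) * k) ^ 2 * ((m : ℝ) + 1) ^ 2) * C₁ :=
            mul_le_mul_of_nonneg_right h1 (by linarith)
        _ = _ := by ring
  · have h1 := hmem 2 p m 0 F 0 l C₁ hp hk hP hμ (Nat.zero_le _) (by simp) le_rfl
      (by simpa using h00)
    have hAA : AA (p ^ m) F l = ‖cD p m 0 ((0 : ℕ) : ℤ) F l‖ ^ 2 := by
      unfold AA
      rw [Nat.cast_zero, cD_zero]
    rw [hAA]
    by_cases h0 : ‖cD p m 0 ((0 : ℕ) : ℤ) F l‖ ^ 2 = 0
    · exact Or.inl h0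
    · right
      refine (h1.nd (lt_of_le_of_ne (by positivity) (Ne.symm h0))).mono hp ?_
      have h2 : (1 : ℝ) ≤ (((N₀ : ℝ) + 1) * k) ^ 2 := one_le_pow₀ hB
      have h3 : (1 : ℝ) ≤ ((m : ℝ) + 1) ^ 2 := one_le_pow₀ (by linarith)
      have h4 : (1 : ℝ) ≤ (((N₀ : ℝ) + 1) * k) ^ 2 * ((m : ℝ) + 1) ^ 2 := by nlinarith
      nlinarith

open Classical in
theorem large (hTER : T_TER) (hFLT : T_FLT) (hNGA : T_NGA) (hVAL : T_VAL) (hTRE : T_TRE) {k : ℕ}
    (hk2 : 2 ≤ k) :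
    ∃ C : ℝ, 1 ≤ C ∧ ∀ (p m : ℕ) (F : ℤ[X]) (l : ℤ), p.Prime → k < p → F.natDegree ≤ k →
      Prm p F → AA (p ^ m) F l = 0 ∨
        Nd k p m F l (C * ((m : ℝ) + 1) ^ 2) (AA (p ^ m) F l) := by
  obtain ⟨C₁, hC₁, hmem⟩ := memb hTER hVAL hk2
  obtain ⟨C₂, hC₂, hflt⟩ := hFLT k hk2
  have hkR : (2 : ℝ) ≤ k := by exact_mod_cast hk2
  set C : ℝ := max C₁ C₂ with hC
  have hC1 : (1 : ℝ) ≤ C := le_trans hC₁ (le_max_left _ _)
  have hB : (1 : ℝ) ≤ (k : ℝ) * (k + 1) := by nlinarith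
  refine ⟨C * ((k : ℝ) * (k + 1)) ^ 2, ?_, ?_⟩
  · have h2 : (1 : ℝ) ≤ ((k : ℝ) * (k + 1)) ^ 2 := one_le_pow₀ hB
    nlinarith
  intro p m F l hp hkp hk hP
  have hp2 : p ≠ 2 := by omega
  have hp0 : (0 : ℝ) < p := by exact_mod_cast hp.pos
  have hμ : (1 : ℕ) = 2 ∨ p ≠ 2 ∧ (1 : ℕ) = 1 := Or.inr ⟨hp2, rfl⟩
  have hm0 : (0 : ℝ) ≤ m := Nat.cast_nonneg _
  by_cases h00 : NT 1 p m F 0 0
  · have htre := hTRE p m F l (fun i y => NT 1 p m F i (y : ℤ)) hp
      (fun i y t h => NT.step hVAL hp (by norm_num) (by simpa using h))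
      (fun y => NT.top hVAL) (by simpa using h00)
    have hfl : ∀ i y : ℕ, ∃ Fl : Finset ℕ, y < p ^ i → NT 1 p m F i (y : ℤ) → (Fl ⊆ range p ∧
        (range p \ Fl).card ≤ k ∧
        (∀ t ∈ Fl, ¬ NT 1 p m F (i + 1) ((y : ℤ) + (p : ℤ) ^ i * (t : ℤ))) ∧
        Gd k p m F l C
          (‖∑ t ∈ Fl, cD p m (i + 1) ((y : ℤ) + (p : ℤ) ^ i * (t : ℤ)) F l‖ ^ 2)) := by
      intro i y
      by_cases hN : y < p ^ i ∧ NT 1 p m F i (y : ℤ)
      · obtain ⟨v, h1, h2, h3, h4, h5⟩ := exact_exp hVAL hp hk hP hN.2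
        obtain ⟨Fl, f1, f2, f3, f4⟩ := hflt p m i v (y : ℤ) F hp hkp hk h1 h2 h4 h5
        refine ⟨Fl, fun _ _ => ⟨f1, f2, fun t ht hNt => hNt.1 ⟨_, f3 t ht⟩,
          i, v, y, h1, by omega, h3, hN.1, h4, (f4 l).trans ?_⟩⟩
        split_ifs
        · have : C₂ ≤ C := le_max_right _ _
          gcongr
        · exact le_rfl
      · exact ⟨∅, fun h h' => absurd ⟨h, h'⟩ hN⟩
    choose Fl hFl using hfl
    let s : Finset (Σ _ : ℕ, Σ _ : ℕ, Option ℕ) := (range m).sigma fun i =>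
      ((range (p ^ i)).filter (fun y : ℕ => NT 1 p m F i (y : ℤ))).sigma fun y : ℕ =>
        Finset.insertNone
        ((range p).filter (fun t : ℕ => ¬ NT 1 p m F (i + 1) ((y + p ^ i * t : ℕ) : ℤ)) \ Fl i y)
    let u : (Σ _ : ℕ, Σ _ : ℕ, Option ℕ) → ℂ := fun c =>
      match c with
      | ⟨i, y, none⟩ => ∑ t ∈ Fl i y, cD p m (i + 1) ((y : ℤ) + (p : ℤ) ^ i * (t : ℤ)) F l
      | ⟨i, y, some t⟩ => cD p m (i + 1) ((y : ℤ) + (p : ℤ) ^ i * (t : ℤ)) F l
    have hs : s.card ≤ m * k * (k + 1) := by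
      rw [Finset.card_sigma]
      calc ∑ i ∈ range m, _ ≤ ∑ i ∈ range m, k * (k + 1) := by
            refine Finset.sum_le_sum fun i _ => ?_
            rw [Finset.card_sigma]
            calc _ ≤ ∑ y ∈ (range (p ^ i)).filter (fun y : ℕ => NT 1 p m F i (y : ℤ)),
                    (k + 1) := by
                  refine Finset.sum_le_sum fun y hy => ?_
                  rw [Finset.card_insertNone]
                  have hy' := Finset.mem_filter.1 hy
                  have h1 := (hFl i y (Finset.mem_range.1 hy'.1) hy'.2).2.1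
                  have h2 : ((range p).filter (fun t : ℕ =>
                      ¬ NT 1 p m F (i + 1) ((y + p ^ i * t : ℕ) : ℤ)) \ Fl i y).card ≤
                      (range p \ Fl i y).card :=
                    Finset.card_le_card (Finset.sdiff_subset_sdiff (Finset.filter_subset _ _)
                      (Finset.Subset.refl _))
                  omega
              _ ≤ k * (k + 1) := by
                  rw [Finset.sum_const, smul_eq_mul]
                  refine Nat.mul_le_mul_right _ ?_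
                  refine le_trans (card_cast (Q := fun y => ¬ ∃ w, Gen p 1 w (dsc p i y F))
                    (fun y hy => hy.1)) (le_trans (Finset.card_le_card ?_)
                    (hNGA k p i F hp hkp hk hP))
                  intro x hx
                  simp only [Finset.mem_filter] at hx ⊢
                  exact hx
        _ = m * k * (k + 1) := by
            rw [Finset.sum_const, smul_eq_mul, Finset.card_range, mul_assoc]
    have hgd : ∀ c ∈ s, Gd k p m F l C (‖u c‖ ^ 2) := by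
      rintro ⟨i, y, o⟩ hc
      simp only [s, Finset.mem_sigma, Finset.mem_range] at hc
      obtain ⟨hi, hy, ho⟩ := hc
      have hy' := Finset.mem_filter.1 hy
      have hyp : y < p ^ i := Finset.mem_range.1 hy'.1
      cases o with
      | none => exact (hFl i y hyp hy'.2).2.2.2
      | some t =>
        rw [Finset.some_mem_insertNone, Finset.mem_sdiff, Finset.mem_filter] at ho
        have hN := ho.1.2
        have ht : t < p := Finset.mem_range.1 ho.1.1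
        have hlt : y + p ^ i * t < p ^ (i + 1) := by
          have h1 : t + 1 ≤ p := ht
          calc y + p ^ i * t < p ^ i + p ^ i * t := Nat.add_lt_add_right hyp _
            _ = p ^ i * (t + 1) := by ring
            _ ≤ p ^ i * p := Nat.mul_le_mul_left _ h1
            _ = p ^ (i + 1) := by rw [pow_succ]
        have h2 := hmem 1 p m (i + 1) F (y + p ^ i * t) l C hp hk hP hμ (by omega)
          hlt (le_max_left _ _) hN
        push_cast at h2
        exact h2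
    have hAA : AA (p ^ m) F l = ‖∑ c ∈ s, u c‖ ^ 2 := by
      unfold AA
      rw [htre]
      congr 2
      simp only [s, Finset.sum_sigma]
      refine Finset.sum_congr rfl fun i _ => ?_
      refine Finset.sum_congr rfl fun y hy => ?_
      rw [Finset.sum_insertNone]
      have hy' := Finset.mem_filter.1 hy
      obtain ⟨h1, h2, h3, h4⟩ := hFl i y (Finset.mem_range.1 hy'.1) hy'.2
      have hsub : Fl i y ⊆ (range p).filter
          (fun t : ℕ => ¬ NT 1 p m F (i + 1) ((y + p ^ i * t : ℕ) : ℤ)) := by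
        intro t ht
        rw [Finset.mem_filter]
        refine ⟨h1 ht, ?_⟩
        push_cast
        exact h3 t ht
      rw [← Finset.sum_sdiff hsub, add_comm]
    rw [hAA]
    rcases pig s u k p m (m * k * (k + 1)) F l C hp (by linarith) hs hgd with h | h
    · exact Or.inl h
    · right
      refine h.mono hp ?_
      have h1 : ((m * k * (k + 1) : ℕ) : ℝ) ^ 2 ≤
          ((k : ℝ) * (k + 1)) ^ 2 * ((m : ℝ) + 1) ^ 2 := by
        push_cast
        rw [← mul_pow]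
        refine pow_le_pow_left₀ (by positivity) ?_ 2
        nlinarith
      calc _ ≤ (((k : ℝ) * (k + 1)) ^ 2 * ((m : ℝ) + 1) ^ 2) * C :=
            mul_le_mul_of_nonneg_right h1 (by linarith)
        _ = _ := by ring
  · have h1 := hmem 1 p m 0 F 0 l C hp hk hP hμ (Nat.zero_le _) (by simp) (le_max_left _ _)
      (by simpa using h00)
    have hAA : AA (p ^ m) F l = ‖cD p m 0 ((0 : ℕ) : ℤ) F l‖ ^ 2 := by
      unfold AA
      rw [Nat.cast_zero, cD_zero]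
    rw [hAA]
    by_cases h0 : ‖cD p m 0 ((0 : ℕ) : ℤ) F l‖ ^ 2 = 0
    · exact Or.inl h0
    · right
      refine (h1.nd (lt_of_le_of_ne (by positivity) (Ne.symm h0))).mono hp ?_
      have h2 : (1 : ℝ) ≤ ((k : ℝ) * (k + 1)) ^ 2 := one_le_pow₀ hB
      have h3 : (1 : ℝ) ≤ ((m : ℝ) + 1) ^ 2 := one_le_pow₀ (by linarith)
      have h4 : (1 : ℝ) ≤ ((k : ℝ) * (k + 1)) ^ 2 * ((m : ℝ) + 1) ^ 2 := by nlinarith
      nlinarith

theorem pf_NOD (hTER : T_TER) (hFLT : T_FLT) (hNGA : T_NGA) (hNGB : T_NGB) (hVAL : T_VAL)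
    (hTRE : T_TRE) : T_NOD := by
  intro d hd
  obtain ⟨C₁, hC₁, h1⟩ := small hTER hNGB hVAL hTRE hd
  obtain ⟨C₂, hC₂, h2⟩ := large hTER hFLT hNGA hVAL hTRE hd
  refine ⟨max C₁ C₂, hC₁.trans (le_max_left _ _), ?_⟩
  intro p m F l hp hF hP
  have hm : (0 : ℝ) ≤ ((m : ℝ) + 1) ^ 2 := by positivity
  rcases Nat.lt_or_ge d p with h | h
  · rcases h2 p m F l hp h hF hP with h3 | h3
    · exact Or.inl h3
    · exact Or.inr (h3.mono hp (mul_le_mul_of_nonneg_right (le_max_right _ _) hm))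
  · rcases h1 p m F l hp h hF hP with h3 | h3
    · exact Or.inl h3
    · exact Or.inr (h3.mono hp (mul_le_mul_of_nonneg_right (le_max_left _ _) hm))

end Pool.Agent.H30.EN.NOD
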