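import Pool.Agent.H65.EN.Targets
import Pool.Agent.H30.EF.PCS

/-!
# Row PCS of the board enx_modules: the derivative test of order r (helper30)
-/

set_option autoImplicit false

namespace Pool.Agent.H30.EN

open Pool.Agent.H65.EN

theorem pf_PCS : T_PCS := Pool.Agent.H30.EF.pf_PCS

end Pool.Agent.H30.EN
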