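import Pool.Agent.H93.EN.Targets4

/-!
# Row TRG: trigonometric polynomials are dense in the continuous functions on the circle
-/

namespace Pool.Agent.H30.EN

open MeasureTheory Set Metric Filter Topology Pool.Agent.H93.EN
open Pool.Agent.H93.BL hiding T_B1 T_B2 T_B3 T_SB T_SC

theorem trg : T_TRG := by
  intro ψ hψ ε hε
  have : Fact (0 < 2 * Real.pi) := ⟨by positivity⟩
  have hcont : Continuous fun x : AddCircle (2 * Real.pi) =>
      ((ψ ((AddCircle.toCircle x : Circle) : ℂ) : ℝ) : ℂ) :=
    Complex.continuous_ofReal.comp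
      (hψ.comp (continuous_subtype_val.comp AddCircle.continuous_toCircle))
  let f : C(AddCircle (2 * Real.pi), ℂ) := ⟨_, hcont⟩
  have h1 : f ∈ closure ((Submodule.span ℂ (range (@fourier (2 * Real.pi))) :
      Submodule ℂ C(AddCircle (2 * Real.pi), ℂ)) : Set C(AddCircle (2 * Real.pi), ℂ)) := by
    have h2 := span_fourier_closure_eq_top (T := 2 * Real.pi)
    have h3 : f ∈ (Submodule.span ℂ (range (@fourier (2 * Real.pi)))).topologicalClosure := by
      rw [h2]; trivial
    rwa [← SetLike.mem_coe, Submodule.topologicalClosure_coe] at h3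
  obtain ⟨g, hg, hfg⟩ := Metric.mem_closure_iff.1 h1 ε hε
  rw [SetLike.mem_coe, Finsupp.mem_span_range_iff_exists_finsupp] at hg
  obtain ⟨c, rfl⟩ := hg
  refine ⟨c.support.sup Int.natAbs, c, fun w hw => ?_⟩
  -- the point on the circle
  have hxw : ((AddCircle.toCircle ((Complex.arg w : ℝ) : AddCircle (2 * Real.pi)) : Circle) : ℂ)
      = w := by
    rw [AddCircle.toCircle_apply_mk, Circle.coe_exp, div_self (by positivity), one_mul]
    have := Complex.norm_mul_exp_arg_mul_I w
    rwa [hw, Complex.ofReal_one, one_mul] at this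
  set x : AddCircle (2 * Real.pi) := ((Complex.arg w : ℝ) : AddCircle (2 * Real.pi)) with hx
  have h4 : ‖f x - (c.sum fun i a => a • fourier i) x‖ ≤ ε := by
    have h5 := ContinuousMap.norm_coe_le_norm (f - c.sum fun i a => a • fourier i) x
    rw [ContinuousMap.sub_apply] at h5
    rw [dist_eq_norm] at hfg
    exact h5.trans hfg.le
  have h6 : f x = ((ψ w : ℝ) : ℂ) := by
    change ((ψ ((AddCircle.toCircle x : Circle) : ℂ) : ℝ) : ℂ) = _
    rw [hxw]
  have h7 : (c.sum fun i a => a • fourier i : C(AddCircle (2 * Real.pi), ℂ)) x =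
      ∑ k ∈ Finset.Icc (-((c.support.sup Int.natAbs : ℕ) : ℤ))
        ((c.support.sup Int.natAbs : ℕ) : ℤ), c k * w ^ k := by
    have hfour : ∀ k : ℤ, (fourier k : C(AddCircle (2 * Real.pi), ℂ)) x = w ^ k := by
      intro k
      rw [fourier_apply, AddCircle.toCircle_zsmul, Circle.coe_zpow, hxw]
    rw [Finsupp.sum, ContinuousMap.sum_apply]
    have hsub : c.support ⊆ Finset.Icc (-((c.support.sup Int.natAbs : ℕ) : ℤ))
        ((c.support.sup Int.natAbs : ℕ) : ℤ) := by
      intro k hk
      have h8 : Int.natAbs k ≤ c.support.sup Int.natAbs := Finset.le_sup hk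
      rw [Finset.mem_Icc]
      omega
    rw [← Finset.sum_subset hsub]
    · refine Finset.sum_congr rfl fun k _ => ?_
      rw [ContinuousMap.smul_apply, hfour, smul_eq_mul]
    · intro k _ hk
      rw [Finsupp.notMem_support_iff.1 hk, zero_mul]
  rw [h6, h7] at h4
  refine le_trans ?_ h4
  have h9 := Complex.abs_re_le_norm (((ψ w : ℝ) : ℂ) -
    ∑ k ∈ Finset.Icc (-((c.support.sup Int.natAbs : ℕ) : ℤ))
        ((c.support.sup Int.natAbs : ℕ) : ℤ), c k * w ^ k)
  rwa [Complex.sub_re, Complex.ofReal_re] at h9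

end Pool.Agent.H30.EN
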